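import Pool.Agent.W661.RC.Stm2

/-! Project RC, part FIN. -/

set_option autoImplicit false

namespace Pool.Agent.W881.RC.Fin

open Matrix Pool.Agent.W661.RC
open scoped ComplexOrder

theorem hs_nonneg {m n : Type} [Fintype m] [Fintype n] (x : Matrix m n ℂ) : 0 ≤ hs x := by
  unfold hs
  exact Finset.sum_nonneg fun _ _ => Finset.sum_nonneg fun _ _ => by positivity

theorem en_nonneg {d k : ℕ} (u : Fin k → Mt d) (x : Mt d) : 0 ≤ en u x := by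
  unfold en
  exact Finset.sum_nonneg fun _ _ => hs_nonneg _

theorem Gap.mono {d k : ℕ} {u : Fin k → Mt d} {A B ζ : ℝ} {q : Mt d} (h : Gap u A ζ q)
    (hAB : A ≤ B) (hζ : 0 ≤ ζ) : Gap u B ζ q := by
  intro x hx
  obtain ⟨m, hm⟩ := h x hx
  refine ⟨m, hm.trans ?_⟩
  have h1 := hs_nonneg x
  have h2 := en_nonneg u x
  have : 0 ≤ en u x + ζ * hs x := by positivity
  exact mul_le_mul_of_nonneg_right hAB this

/-- `X* X ≤ 1` from `a = Θ X Θ*`, `a* a ≤ 1`. -/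
theorem le_of_conj {d : ℕ} {J : Type} [Fintype J] [DecidableEq J] (Θ : Matrix (Fin d) J ℂ)
    (hΘ : Θᴴ * Θ = 1) (X : Matrix J J ℂ) (h : Le ((Θ * X * Θᴴ)ᴴ * (Θ * X * Θᴴ)) 1) :
    Le (Xᴴ * X) 1 := by
  unfold Le at h ⊢
  have h1 := h.conjTranspose_mul_mul_same Θ
  have h2 : Θᴴ * (1 - (Θ * X * Θᴴ)ᴴ * (Θ * X * Θᴴ)) * Θ = 1 - Xᴴ * X := by
    rw [Matrix.mul_sub, Matrix.sub_mul, Matrix.mul_one, hΘ]
    congr 1
    simp only [conjTranspose_mul, conjTranspose_conjTranspose]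
    calc Θᴴ * (Θ * (Xᴴ * Θᴴ) * (Θ * X * Θᴴ)) * Θ
        = (Θᴴ * Θ) * Xᴴ * (Θᴴ * Θ) * X * (Θᴴ * Θ) := by simp only [Matrix.mul_assoc]
      _ = Xᴴ * X := by rw [hΘ]; simp
  rwa [h2] at h1

theorem le_conj {d : ℕ} {J : Type} [Fintype J] [DecidableEq J] (Θ : Matrix (Fin d) J ℂ)
    (hΘ : Θᴴ * Θ = 1) (X : Matrix J J ℂ) (h : Le (Xᴴ * X) 1) :
    Le ((Θ * X * Θᴴ)ᴴ * (Θ * X * Θᴴ)) 1 := by
  unfold Le at h ⊢
  have h1 := h.mul_mul_conjTranspose_same Θ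
  have h2 : ((1 - Θ * Θᴴ)ᴴ * (1 - Θ * Θᴴ)).PosSemidef := posSemidef_conjTranspose_mul_self _
  have h3 : (1 - Θ * Θᴴ)ᴴ * (1 - Θ * Θᴴ) = 1 - Θ * Θᴴ := by
    have h4 : (Θ * Θᴴ) * (Θ * Θᴴ) = Θ * Θᴴ := by
      calc (Θ * Θᴴ) * (Θ * Θᴴ) = Θ * (Θᴴ * Θ) * Θᴴ := by simp only [Matrix.mul_assoc]
        _ = Θ * Θᴴ := by rw [hΘ, Matrix.mul_one]
    rw [conjTranspose_sub, conjTranspose_one, conjTranspose_mul, conjTranspose_conjTranspose,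
      Matrix.mul_sub, Matrix.sub_mul, Matrix.sub_mul, h4]
    simp
  rw [h3] at h2
  have h5 := h2.add h1
  have h6 : 1 - Θ * Θᴴ + Θ * (1 - Xᴴ * X) * Θᴴ = 1 - (Θ * X * Θᴴ)ᴴ * (Θ * X * Θᴴ) := by
    simp only [conjTranspose_mul, conjTranspose_conjTranspose]
    have h7 : Θ * (Xᴴ * Θᴴ) * (Θ * X * Θᴴ) = Θ * (Xᴴ * X) * Θᴴ := by
      calc Θ * (Xᴴ * Θᴴ) * (Θ * X * Θᴴ) = Θ * Xᴴ * (Θᴴ * Θ) * X * Θᴴ := by
            simp only [Matrix.mul_assoc]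
        _ = Θ * (Xᴴ * X) * Θᴴ := by rw [hΘ]; simp only [Matrix.mul_assoc, Matrix.one_mul]
    rw [h7, Matrix.mul_sub, Matrix.sub_mul, Matrix.mul_one]
    abel
  rwa [h6] at h5

/-- choice of the constants. -/
theorem consts (k C2 E γ ε : ℝ) (hk0 : 0 ≤ k) (hC2 : 1 ≤ C2) (hE0 : 0 < E) (hγ0 : 0 < γ)
    (hε : 0 < ε) : ∃ ζ : ℝ, 0 < ζ ∧ ∀ η : ℝ, 0 < η → η ≤ ζ → ∀ κ0 X : ℝ,
      κ0 = 3000 * (k + 1) * C2 * (ζ + η) → X = √(√(ζ + κ0)) →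
      ζ ≤ 1 / 10000 ∧ 0 ≤ κ0 ∧ κ0 ≤ 1 / 10000 ∧ ζ + η ≤ γ ∧ 0 ≤ X ∧
      4 * (1000 * (k + 1) * X) ≤ ε ∧ 100 * X ≤ ε ∧
      800 * X + 2 * (E * (24 * (1000 * (k + 1) * X))) + 2 * C2 * ζ ≤ ε := by
  obtain ⟨Bc, hBc⟩ : ∃ Bc : ℝ, Bc = 4000 * (k + 1) + 900 + 2 * (E * (24 * (1000 * (k + 1))))
      + 2 * C2 := ⟨_, rfl⟩
  have hp1 : 0 ≤ 2 * (E * (24 * (1000 * (k + 1)))) := by positivity
  have hp2 : 0 ≤ 4000 * (k + 1) := by positivity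
  have hBc1 : 1 ≤ Bc := by rw [hBc]; linarith
  obtain ⟨ξ, hξ⟩ : ∃ ξ : ℝ, ξ = min 1 ε / Bc := ⟨_, rfl⟩
  have hmin0 : 0 < min 1 ε := lt_min one_pos hε
  have hξ0 : 0 < ξ := by rw [hξ]; positivity
  have hξ1 : ξ ≤ 1 := by
    rw [hξ, div_le_one (by positivity)]
    exact (min_le_left _ _).trans hBc1
  have hξε : Bc * ξ ≤ ε := by
    rw [hξ, mul_div_cancel₀ _ (by positivity)]
    exact min_le_right _ _
  obtain ⟨A, hA⟩ : ∃ A : ℝ, A = 1 + 6000 * (k + 1) * C2 := ⟨_, rfl⟩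
  have hA1 : 1 ≤ A := by
    rw [hA]
    have : 0 ≤ 6000 * (k + 1) * C2 := by positivity
    linarith
  obtain ⟨ζ, hζ⟩ : ∃ ζ : ℝ, ζ = min (ξ ^ 4 / A) (min (1 / 10000 / A) (γ / 2)) := ⟨_, rfl⟩
  have hζ0 : 0 < ζ := by
    rw [hζ]
    refine lt_min (by positivity) (lt_min (by positivity) (by positivity))
  have hζ1 : A * ζ ≤ ξ ^ 4 := by
    have : ζ ≤ ξ ^ 4 / A := by rw [hζ]; exact min_le_left _ _
    rw [le_div_iff₀ (by positivity)] at this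
    linarith
  have hζ2 : A * ζ ≤ 1 / 10000 := by
    have : ζ ≤ 1 / 10000 / A := by
      rw [hζ]; exact (min_le_right _ _).trans (min_le_left _ _)
    rw [le_div_iff₀ (by positivity)] at this
    linarith
  have hζ3 : ζ ≤ γ / 2 := by
    rw [hζ]; exact (min_le_right _ _).trans (min_le_right _ _)
  have hζA : ζ ≤ A * ζ := by nlinarith
  refine ⟨ζ, hζ0, fun η hηpos hηζ κ0 X hκ hX => ?_⟩
  have hκ0 : 0 ≤ κ0 := by rw [hκ]; positivity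
  have hκA : ζ + κ0 ≤ A * ζ := by
    rw [hκ, hA]
    have h3 : 3000 * (k + 1) * C2 * (ζ + η) ≤ 3000 * (k + 1) * C2 * (ζ + ζ) := by
      apply mul_le_mul_of_nonneg_left (by linarith) (by positivity)
    linarith
  have hX0 : 0 ≤ X := by rw [hX]; exact Real.sqrt_nonneg _
  have hXξ : X ≤ ξ := by
    rw [hX]
    apply Real.sqrt_le_iff.mpr ⟨hξ0.le, ?_⟩
    apply Real.sqrt_le_iff.mpr ⟨by positivity, ?_⟩
    calc ζ + κ0 ≤ A * ζ := hκA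
      _ ≤ ξ ^ 4 := hζ1
      _ = (ξ ^ 2) ^ 2 := by ring
  have hζξ : ζ ≤ ξ := by
    have h4 : ξ ^ 4 ≤ ξ := by
      have := pow_le_pow_of_le_one hξ0.le hξ1 (show 1 ≤ 4 by norm_num)
      simpa using this
    linarith
  have n1 : 4 * (1000 * (k + 1) * X) ≤ ε := by
    have e1 : 4 * (1000 * (k + 1) * X) = (4000 * (k + 1)) * X := by ring
    have e2 : (4000 * (k + 1)) * X ≤ Bc * ξ :=
      mul_le_mul (by rw [hBc]; linarith) hXξ hX0 (by positivity)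
    linarith
  have n2 : 100 * X ≤ ε := by
    have e2 : 100 * X ≤ Bc * ξ := mul_le_mul (by rw [hBc]; linarith) hXξ hX0 (by positivity)
    linarith
  have n3 : 800 * X + 2 * (E * (24 * (1000 * (k + 1) * X))) + 2 * C2 * ζ ≤ ε := by
    have e2 : (800 + 2 * (E * (24 * (1000 * (k + 1))))) * X
        ≤ (800 + 2 * (E * (24 * (1000 * (k + 1))))) * ξ :=
      mul_le_mul_of_nonneg_left hXξ (by positivity)
    have e3 : 2 * C2 * ζ ≤ 2 * C2 * ξ := mul_le_mul_of_nonneg_left hζξ (by positivity)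
    have e4 : (800 + 2 * (E * (24 * (1000 * (k + 1)))) + 2 * C2) * ξ ≤ Bc * ξ := by
      apply mul_le_mul_of_nonneg_right _ hξ0.le
      rw [hBc]
      linarith
    have e5 : (800 + 2 * (E * (24 * (1000 * (k + 1)))) + 2 * C2) * ξ
        = (800 + 2 * (E * (24 * (1000 * (k + 1))))) * ξ + 2 * C2 * ξ := by ring
    have e6 : 800 * X + 2 * (E * (24 * (1000 * (k + 1) * X)))
        = (800 + 2 * (E * (24 * (1000 * (k + 1))))) * X := by ring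
    linarith
  exact ⟨by linarith, hκ0, by linarith, by linarith, hX0, n1, n2, n3⟩

theorem fin {d k : ℕ} {C η δ : ℝ} (S : Stp d k C η δ) (hd0 : (0 : ℝ) < (d : ℝ))
    {γ E C2 ζ ε X : ℝ} (hγ0 : 0 < γ) (hE : E = C2 + 1 / γ) (hE0 : 0 < E) (hC2 : 1 ≤ C2)
    (hζ0 : 0 < ζ) {n : ℕ} {q : _root_.Fin n → Mt d} (hpr : ∀ i, IsPr (q i))
    (hgap : ∀ i, Gap S.u C2 ζ (q i)) {c : _root_.Fin n → _root_.Fin n}
    (hc4 : ∀ i j, c i ≠ c j → ∀ x : Mt d, q (c i) * x * q (c j) = x → γ * hs x ≤ en S.u x)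
    (h1 : As1P) (h2 : As2P)
    (I : Finset (_root_.Fin n)) (l : _root_.Fin n → ℕ)
    (b : (κ : _root_.Fin n) → Matrix (_root_.Fin d) (_root_.Fin (l κ)) ℂ)
    (Θ : Matrix (_root_.Fin d) (Jx (fun i : I => c i) l) ℂ)
    (hΘ : Θᴴ * Θ = 1) (hb1 : ∀ κ, (b κ)ᴴ * b κ = 1) (hb2 : ∀ κ, q κ * b κ = b κ)
    (g1 : (d : ℝ) - Fintype.card (Jx (fun i : I => c i) l) ≤ 100 * X * d)
    (g2 : ∑ s, hs (S.u s * Θ - Θ * Ut (fun i : I => c i) l b (S.u s))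
      ≤ 1000 * ((k : ℝ) + 1) * X * d)
    (g3 : ∑ s, hs ((S.u s)ᴴ * Θ - Θ * (Ut (fun i : I => c i) l b (S.u s))ᴴ)
      ≤ 1000 * ((k : ℝ) + 1) * X * d)
    (g4 : ∑ s, ∑ i : I, hs (S.u s * b (c i) - b (c i) * ((b (c i))ᴴ * S.u s * b (c i)))
      ≤ 1000 * ((k : ℝ) + 1) * X * d)
    (g5 : ∑ s, ∑ i : I, hs ((S.u s)ᴴ * b (c i) - b (c i) * ((b (c i))ᴴ * (S.u s)ᴴ * b (c i)))
      ≤ 1000 * ((k : ℝ) + 1) * X * d)
    (n1 : 4 * (1000 * ((k : ℝ) + 1) * X) ≤ ε) (n2 : 100 * X ≤ ε)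
    (n3 : 800 * X + 2 * (E * (24 * (1000 * ((k : ℝ) + 1) * X))) + 2 * C2 * ζ ≤ ε) :
    ∃ O : Out d, (∀ a ∈ O.alg, Le (aᴴ * a) 1 → en S.u a ≤ ε * d) ∧
        (∀ x : Mt d, Le (xᴴ * x) 1 → ∃ a ∈ O.alg, Le (aᴴ * a) 1 ∧
          hs (x - a) ≤ 18 * E * en S.u x + ε * d) ∧
        (d : ℝ) - Fintype.card (Jx O.c O.l) ≤ ε * d := by
  let O : Out d :=
    { I := {x // x ∈ I}
      K := _root_.Fin n
      fI := inferInstance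
      dI := inferInstance
      dK := inferInstance
      c := fun i => c i
      l := l
      Θ := Θ
      iso := hΘ }
  refine ⟨O, ?_, ?_, ?_⟩
  · rintro x ⟨Y, hY, rfl⟩ hx
    have hY1 : Le (Yᴴ * Y) 1 := le_of_conj Θ hΘ Y hx
    have := h1 d k S.u {x // x ∈ I} (_root_.Fin n) (fun i => c i) l b Θ
      (1000 * ((k : ℝ) + 1) * X * d) S.hu hΘ g2 g3 Y hY hY1
    refine this.trans ?_
    calc 4 * (1000 * ((k : ℝ) + 1) * X * d) = 4 * (1000 * ((k : ℝ) + 1) * X) * d := by ring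
      _ ≤ ε * d := mul_le_mul_of_nonneg_right n1 hd0.le
  · intro x hx
    obtain ⟨Y, hY, hY1, hY2⟩ := h2 d k S.u {x // x ∈ I} (_root_.Fin n) (fun i => c i) l b q Θ
      (1000 * ((k : ℝ) + 1) * X * d) (1000 * ((k : ℝ) + 1) * X * d) C2 ζ γ S.hu hγ0
      (by linarith) hζ0.le hΘ hb1 hpr hb2 (fun i => hgap _)
      (fun i j hij => hc4 i j hij) g2 g3 g4 g5 x hx
    refine ⟨Θ * Y * Θᴴ, ⟨Y, hY, rfl⟩, le_conj Θ hΘ Y hY1, hY2.trans ?_⟩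
    have e0 := en_nonneg S.u x
    have e1 : 8 * ((d : ℝ) - Fintype.card (Jx (fun i : {x // x ∈ I} => c i) l)) ≤ 800 * X * d := by
      have := g1
      linarith
    rw [← hE]
    have e2 : 2 * (E * (9 * (2 * (1000 * ((k : ℝ) + 1) * X * d) + en S.u x)
          + 6 * (1000 * ((k : ℝ) + 1) * X * d)) + C2 * ζ * d)
        = 18 * E * en S.u x + (2 * (E * (24 * (1000 * ((k : ℝ) + 1) * X))) + 2 * C2 * ζ) * d := by
      ring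
    rw [e2]
    have e3 : (800 * X + 2 * (E * (24 * (1000 * ((k : ℝ) + 1) * X))) + 2 * C2 * ζ) * d ≤ ε * d :=
      mul_le_mul_of_nonneg_right n3 hd0.le
    have e4 : (800 * X + 2 * (E * (24 * (1000 * ((k : ℝ) + 1) * X))) + 2 * C2 * ζ) * d
        = 800 * X * d + (2 * (E * (24 * (1000 * ((k : ℝ) + 1) * X))) + 2 * C2 * ζ) * d := by ring
    linarith
  · refine le_trans g1 ?_
    exact mul_le_mul_of_nonneg_right n2 hd0.le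

theorem main (hD : DecP) (hG : GapP) (hC : ClsP) (h0 : As0P) (h1 : As1P) (h2 : As2P) : FinP := by
  intro k C hC1
  obtain ⟨C2, hC2⟩ : ∃ C2 : ℝ, C2 = 16 * ((k : ℝ) + 1) * (2048 * C) ^ 2 := ⟨_, rfl⟩
  have hk0 : (0 : ℝ) ≤ (k : ℝ) := Nat.cast_nonneg k
  have hC2one : 1 ≤ C2 := by
    rw [hC2]
    have e1 : (1 : ℝ) ≤ (2048 * C) ^ 2 := by nlinarith
    nlinarith
  obtain ⟨γ, hγ⟩ : ∃ γ : ℝ, γ = 1 / (1000 * ((k : ℝ) + 1) * C2 * C) := ⟨_, rfl⟩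
  have hγ0 : 0 < γ := by
    rw [hγ]
    have : 0 < 1000 * ((k : ℝ) + 1) * C2 * C := by positivity
    positivity
  obtain ⟨E, hE⟩ : ∃ E : ℝ, E = C2 + 1 / γ := ⟨_, rfl⟩
  have hE0 : 0 < E := by rw [hE]; positivity
  refine ⟨18 * E, by positivity, fun ε hε => ?_⟩
  obtain ⟨ζ, hζ0, hcon⟩ := consts (k : ℝ) C2 E γ ε hk0 hC2one hE0 hγ0 hε
  obtain ⟨η0, hη0, hη⟩ := hD k C ζ hC1 hζ0
  obtain ⟨η, hηd⟩ : ∃ η : ℝ, η = min η0 ζ := ⟨_, rfl⟩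
  have hηpos : 0 < η := by rw [hηd]; exact lt_min hη0 hζ0
  have hηζ : η ≤ ζ := by rw [hηd]; exact min_le_right _ _
  refine ⟨η, hηpos, fun δ hδ => ?_⟩
  obtain ⟨δ1, hδ1, hdec⟩ := hη η hηpos (by rw [hηd]; exact min_le_left _ _) δ hδ
  refine ⟨δ1, hδ1, fun d S hd hSD => ?_⟩
  obtain ⟨n, a, q, hDec⟩ := hdec d S hd hSD
  have hd0 : (0 : ℝ) < (d : ℝ) := by exact_mod_cast hd
  obtain ⟨κ0, hκ⟩ : ∃ κ0 : ℝ, κ0 = 3000 * ((k : ℝ) + 1) * C2 * (ζ + η) := ⟨_, rfl⟩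
  obtain ⟨X, hX⟩ : ∃ X : ℝ, X = √(√(ζ + κ0)) := ⟨_, rfl⟩
  obtain ⟨c1, c2, c3, c4, c5, n1, n2, n3⟩ := hcon η hηpos hηζ κ0 X hκ hX
  clear hcon
  have hgap : ∀ i, Gap S.u C2 ζ (q i) := by
    intro i
    have h5 := hG d k S.u (1 / (2048 * C)) ζ (q i) S.hu (hDec.pr i) (by positivity) hζ0.le
      (hDec.inv i) (hDec.iso i)
    refine Gap.mono h5 ?_ hζ0.le
    rw [hC2]
    have h6 : 16 * (k : ℝ) / (1 / (2048 * C)) ^ 2 = 16 * (k : ℝ) * (2048 * C) ^ 2 := by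
      field_simp
    rw [h6]
    have : 0 ≤ (2048 * C) ^ 2 := by positivity
    nlinarith
  obtain ⟨c, v, hv1, hv2, hc1, hc2, hc3, hc4⟩ := hC d k C η δ S C2 ζ n q hηpos hC1 hC2one hζ0.le
    (by rw [← hγ]; exact c4) hDec.pr hDec.nz hgap hDec.inv hDec.bad
  rw [← hγ] at hc4
  rw [← hκ] at hc3
  have hc2' : ∀ i, tr (q i) ≤ (1 + κ0) * tr (q (c i)) := by
    intro i
    refine (hc2 i).trans ?_
    apply mul_le_mul_of_nonneg_right _ (hDec.nz (c i)).le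
    rw [hκ]
    have h7 : 0 ≤ C2 * (ζ + η) := by positivity
    have h8 : 0 ≤ (k : ℝ) * (C2 * (ζ + η)) := by positivity
    linarith
  obtain ⟨I, l, b, Θ, hΘ, hb1, hb2, g1, g2, g3, g4, g5⟩ := h0 d k C η δ S ζ κ0 n a q v c hd hζ0
    c1 c2 c3 hDec hv1 hv2 hc1 hc2' hc3
  rw [← hX] at g1 g2 g3 g4 g5
  exact fin S hd0 hγ0 hE hE0 hC2one hζ0 hDec.pr hgap hc4 h1 h2 I l b Θ hΘ hb1 hb2 g1 g2 g3 g4 g5
    n1 n2 n3

end Pool.Agent.W881.RC.Fin
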