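import Pool.Agent.W661.RC.Stm3

/-! Project RC, part MID. -/

set_option autoImplicit false

namespace Pool.Agent.W881.RC.Mid

open Matrix Filter Topology Pool.Agent.W661.RC
open scoped ComplexOrder
open scoped Matrix.Norms.L2Operator

theorem diag (𝒰 : Ultrafilter ℕ) (h : (𝒰 : Filter ℕ) ≤ cofinite) (P : ℕ → ℕ → Prop)
    (hP : ∀ j, ∀ᶠ n in (𝒰 : Filter ℕ), P j n) :
    ∃ J : ℕ → ℕ, Tendsto J 𝒰 atTop ∧ ∀ᶠ n in (𝒰 : Filter ℕ), P (J n) n := by
  classical
  rw [Nat.cofinite_eq_atTop] at h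
  refine ⟨fun n => Nat.findGreatest (fun j => P j n) n, ?_, ?_⟩
  · rw [tendsto_atTop]
    intro m
    filter_upwards [hP m, h (eventually_ge_atTop m)] with n h1 h2
    exact Nat.le_findGreatest h2 h1
  · filter_upwards [hP 0] with n h1
    exact Nat.findGreatest_spec (P := fun j => P j n) (Nat.zero_le n) h1

theorem mem_null (𝒰 : Ultrafilter ℕ) (d : ℕ → ℕ) (x : BSeq d) :
    x ∈ NullI 𝒰 d ↔ Tendsto (fun n => hs ((x : ∀ n, Mt (d n)) n) / d n) 𝒰 (𝓝 0) := by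
  unfold NullI
  exact TwoSidedIdeal.mem_mk' _ _ _ _ _ _ _

theorem mkU_eq (𝒰 : Ultrafilter ℕ) (d : ℕ → ℕ) (x y : BSeq d) (h : mkU 𝒰 d x = mkU 𝒰 d y) :
    Tendsto (fun n => hs ((x : ∀ n, Mt (d n)) n - (y : ∀ n, Mt (d n)) n) / d n) 𝒰 (𝓝 0) := by
  have h1 : (NullI 𝒰 d).ringCon x y := (RingCon.eq _).1 h
  rw [TwoSidedIdeal.rel_iff] at h1
  exact (mem_null 𝒰 d (x - y)).1 h1

theorem mkU_one (𝒰 : Ultrafilter ℕ) (d : ℕ → ℕ) (A : ∀ n, Matrix.unitaryGroup (Fin (d n)) ℂ)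
    (h : mkU 𝒰 d (unB A) = 1) :
    Tendsto (fun n => hs ((A n : Mt (d n)) - 1) / d n) 𝒰 (𝓝 0) := by
  have h2 : mkU 𝒰 d (unB A) = mkU 𝒰 d 1 := h
  exact mkU_eq 𝒰 d (unB A) 1 h2

theorem unB_mul {d : ℕ → ℕ} (A B : ∀ n, Matrix.unitaryGroup (Fin (d n)) ℂ) :
    unB (fun n => A n * B n) = unB A * unB B := rfl

theorem unB_one {d : ℕ → ℕ} :
    unB (fun n => (1 : Matrix.unitaryGroup (Fin (d n)) ℂ)) = 1 := rfl

theorem lift_mk {G : Type} [Group G] {k : ℕ} (γ : FreeGroup (Fin k) →* G)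
    (𝒰 : Ultrafilter ℕ) (d : ℕ → ℕ) (π : G →* MU 𝒰 d)
    (U : Fin k → ∀ n, Matrix.unitaryGroup (Fin (d n)) ℂ)
    (h : ∀ s, mkU 𝒰 d (unB (U s)) = π (γ (FreeGroup.of s))) (w : FreeGroup (Fin k)) :
    mkU 𝒰 d (unB (fun n => FreeGroup.lift (fun s => U s n) w)) = π (γ w) := by
  let φ : FreeGroup (Fin k) →* MU 𝒰 d :=
    { toFun := fun w => mkU 𝒰 d (unB (fun n => FreeGroup.lift (fun s => U s n) w))
      map_one' := by
        simp only [map_one]
        rw [unB_one, map_one]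
      map_mul' := by
        intro a b
        simp only [map_mul]
        rw [unB_mul, map_mul] }
  have : φ = π.comp γ := by
    apply FreeGroup.ext_hom
    intro s
    have h1 : φ (FreeGroup.of s) = mkU 𝒰 d (unB (fun n => FreeGroup.lift (fun s => U s n)
        (FreeGroup.of s))) := rfl
    rw [h1]
    simp only [FreeGroup.lift_apply_of]
    exact h s
  exact DFunLike.congr_fun this w

theorem tr_sq {d : ℕ} (x : Mt d) : tr (xᴴ * x) = hs x := by
  unfold tr hs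
  rw [Matrix.trace, Complex.re_sum, Finset.sum_comm]
  refine Finset.sum_congr rfl fun j _ => ?_
  rw [Matrix.diag_apply, Matrix.mul_apply, Complex.re_sum]
  refine Finset.sum_congr rfl fun i _ => ?_
  rw [Matrix.conjTranspose_apply, Complex.star_def, ← Complex.normSq_eq_conj_mul_self,
    Complex.ofReal_re, Complex.normSq_eq_norm_sq]

theorem tr_dfc {k d : ℕ} (U : Fin k → Matrix.unitaryGroup (Fin d) ℂ)
    (R : Finset (FreeGroup (Fin k))) :
    tr (Dfc U R) = ∑ w ∈ R, hs ((FreeGroup.lift U w : Mt d) - 1) := by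
  unfold Dfc
  have : ∀ (f : FreeGroup (Fin k) → Mt d), tr (∑ w ∈ R, f w) = ∑ w ∈ R, tr (f w) := by
    intro f
    unfold tr
    rw [Matrix.trace_sum, Complex.re_sum]
  rw [this]
  exact Finset.sum_congr rfl fun w _ => tr_sq _

theorem triv (d : ℕ) : ∃ (O : Out d), IsEmpty O.K := by
  refine ⟨{ I := Empty
            K := Empty
            fI := inferInstance
            dI := inferInstance
            dK := inferInstance
            c := fun x => x.elim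
            l := fun x => x.elim
            Θ := fun _ x => x.1.elim
            iso := ?_ }, ?_⟩
  · ext x
    exact x.1.elim
  · exact (inferInstance : IsEmpty Empty)

theorem main (hP : PtdP) (hF : Fin2P) : MidP := by
  intro G _ k γ 𝒰 d π U hT hsurj hU hd hπ
  obtain ⟨C, hC1, hPt⟩ := hP G k γ hT hsurj
  obtain ⟨K0, hK0, hFin⟩ := hF k C hC1
  choose η hη hη' using fun j : ℕ => hFin (1 / ((j : ℝ) + 1)) (by positivity)
  choose δ hδ R hR hS using fun j => hPt (η j) (hη j)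
  choose δ1 hδ1 hO using fun j => hη' j (δ j) (hδ j)
  -- the defects are small
  have hw : ∀ w : FreeGroup (Fin k), γ w = 1 →
      Tendsto (fun n => hs ((FreeGroup.lift (fun s => U s n) w : Mt (d n)) - 1) / d n) 𝒰 (𝓝 0) := by
    intro w hw
    have h1 := lift_mk γ 𝒰 d π U hπ w
    rw [hw, map_one] at h1
    exact mkU_one 𝒰 d (fun n => FreeGroup.lift (fun s => U s n) w) h1
  have hev : ∀ j, ∀ᶠ n in (𝒰 : Filter ℕ), tr (Dfc (fun s => U s n) (R j)) ≤ δ1 j * d n := by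
    intro j
    have h1 : Tendsto (fun n => ∑ w ∈ R j,
        hs ((FreeGroup.lift (fun s => U s n) w : Mt (d n)) - 1) / d n) 𝒰 (𝓝 0) := by
      have := tendsto_finsetSum (R j) (fun w hwj => hw w (hR j w hwj))
      simpa using this
    filter_upwards [h1.eventually (gt_mem_nhds (hδ1 j))] with n hn
    have hdn : (0 : ℝ) < d n := by exact_mod_cast hd n
    rw [tr_dfc]
    rw [← Finset.sum_div, div_lt_iff₀ hdn] at hn
    exact hn.le
  obtain ⟨J, hJ1, hJ2⟩ := diag 𝒰 hU (fun j n => tr (Dfc (fun s => U s n) (R j)) ≤ δ1 j * d n) hev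
  have key : ∀ n, ∃ (O : Out (d n)) (b : (κ : O.K) → Matrix (Fin (d n)) (Fin (O.l κ)) ℂ),
      tr (Dfc (fun s => U s n) (R (J n))) ≤ δ1 (J n) * d n →
      (∀ κ, (b κ)ᴴ * b κ = 1) ∧
      ∑ s, hs ((U s n : Mt (d n)) * O.Θ - O.Θ * Ut O.c O.l b (U s n : Mt (d n)))
        ≤ 1 / ((J n : ℝ) + 1) * d n ∧
      (∀ a ∈ O.alg, Le (aᴴ * a) 1 → en (fun s => (U s n : Mt (d n))) a
        ≤ 1 / ((J n : ℝ) + 1) * d n) ∧
      (∀ x : Mt (d n), Le (xᴴ * x) 1 → ∃ a ∈ O.alg, Le (aᴴ * a) 1 ∧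
        hs (x - a) ≤ K0 * en (fun s => (U s n : Mt (d n))) x + 1 / ((J n : ℝ) + 1) * d n) ∧
      ((d n : ℝ) - Fintype.card (Jx O.c O.l) ≤ 1 / ((J n : ℝ) + 1) * d n) := by
    intro n
    by_cases hn : tr (Dfc (fun s => U s n) (R (J n))) ≤ δ1 (J n) * d n
    · obtain ⟨S, hSu, hSD⟩ := hS (J n) (d n) (fun s => U s n)
      obtain ⟨O, b, h1, h2, h3, h4, h5⟩ := hO (J n) (d n) S (hd n) (by rw [hSD]; exact hn)
      have hu : S.u = fun s => (U s n : Mt (d n)) := funext hSu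
      rw [hu] at h2 h3 h4
      exact ⟨O, b, fun _ => ⟨h1, h2, h3, h4, h5⟩⟩
    · obtain ⟨O, hE⟩ := triv (d n)
      exact ⟨O, fun κ => hE.elim κ, fun h => absurd h hn⟩
  choose O b hOb using key
  refine ⟨K0, fun n => 1 / ((J n : ℝ) + 1), O, b, hK0, ?_, ?_⟩
  · exact tendsto_one_div_add_atTop_nhds_zero_nat.comp hJ1
  · filter_upwards [hJ2] with n hn
    exact hOb n hn

end Pool.Agent.W881.RC.Mid
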